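import Mathlib

set_option autoImplicit false

/-!
A realization theorem: a subring `T` of a rational algebra generated by a sequence of square-zero
elements and of idempotents (with their complements), in which no nonzero element is divisible by
infinitely many primes, is the endomorphism ring of a torsion-free group between `T` and its
rational span.
-/

namespace Pool.Agent.Q119.Real

universe u

section loc

variable {E : Type u} [Ring E]

/-- The elements that are multiplied into `T` by a number prime to `p`. -/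
def Loc (T : Subring E) (p : ℕ) : AddSubgroup E where
  carrier := {b | ∃ m : ℕ, m.Coprime p ∧ (m : E) * b ∈ T}
  zero_mem' := ⟨1, Nat.coprime_one_left p, by simp⟩
  add_mem' := by
    rintro a b ⟨m, hm, ha⟩ ⟨n, hn, hb⟩
    refine ⟨m * n, Nat.Coprime.mul_left hm hn, ?_⟩
    have h1 : ((m * n : ℕ) : E) * (a + b) = n * (m * a) + m * (n * b) := by
      rw [Nat.cast_mul, mul_add]
      congr 1
      · rw [← mul_assoc (n : E), (Nat.cast_commute m (n : E)).eq]
      · rw [← mul_assoc]
    rw [h1]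
    exact T.add_mem (T.mul_mem (natCast_mem T n) ha) (T.mul_mem (natCast_mem T m) hb)
  neg_mem' := by
    rintro a ⟨m, hm, ha⟩
    exact ⟨m, hm, by rw [mul_neg]; exact T.neg_mem ha⟩

variable {T : Subring E} {p : ℕ}

theorem mem_Loc {b : E} : b ∈ Loc T p ↔ ∃ m : ℕ, m.Coprime p ∧ (m : E) * b ∈ T := Iff.rfl

theorem Loc_of_mem {b : E} (h : b ∈ T) : b ∈ Loc T p :=
  ⟨1, Nat.coprime_one_left p, by simpa using h⟩

theorem Loc_mul_left {r b : E} (hr : r ∈ T) (h : b ∈ Loc T p) : r * b ∈ Loc T p := by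
  obtain ⟨m, hm, hb⟩ := h
  refine ⟨m, hm, ?_⟩
  rw [← mul_assoc, (Nat.cast_commute m r).eq, mul_assoc]
  exact T.mul_mem hr hb

theorem Loc_mul_right {r b : E} (hr : r ∈ T) (h : b ∈ Loc T p) : b * r ∈ Loc T p := by
  obtain ⟨m, hm, hb⟩ := h
  refine ⟨m, hm, ?_⟩
  rw [← mul_assoc]
  exact T.mul_mem hb hr

theorem Loc_of_nat {n : ℕ} (hn : n.Coprime p) {b : E} (h : (n : E) * b ∈ Loc T p) :
    b ∈ Loc T p := by
  obtain ⟨m, hm, hb⟩ := h
  refine ⟨m * n, Nat.Coprime.mul_left hm hn, ?_⟩
  rwa [Nat.cast_mul, mul_assoc]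

theorem gcd_mem {m n : ℕ} {b : E} (hm : (m : E) * b ∈ T) (hn : (n : E) * b ∈ T) :
    ((m.gcd n : ℕ) : E) * b ∈ T := by
  have h1 : ((m.gcd n : ℕ) : E) * b = (m.gcdA n : E) * (m * b) + (m.gcdB n : E) * (n * b) := by
    have h2 := congrArg (Int.cast : ℤ → E) (Nat.gcd_eq_gcd_ab m n)
    push_cast at h2
    rw [h2, add_mul, ← mul_assoc, ← mul_assoc, (Int.cast_commute (m.gcdA n) (m : E)).eq,
      (Int.cast_commute (m.gcdB n) (n : E)).eq]
  rw [h1]
  exact T.add_mem (T.mul_mem (intCast_mem T _) hm) (T.mul_mem (intCast_mem T _) hn)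

theorem mem_of_Loc {b : E} (h : ∀ p : ℕ, p.Prime → b ∈ Loc T p) : b ∈ T := by
  classical
  have hex : ∃ n : ℕ, 0 < n ∧ (n : E) * b ∈ T := by
    obtain ⟨m, hm, hb⟩ := h 2 Nat.prime_two
    refine ⟨m, Nat.pos_of_ne_zero ?_, hb⟩
    rintro rfl
    simp at hm
  obtain ⟨hn0, hnb⟩ := Nat.find_spec hex
  set n := Nat.find hex with hn
  by_cases h1 : n = 1
  · rw [h1] at hnb
    simpa using hnb
  · obtain ⟨p, hp, hpn⟩ := Nat.exists_prime_and_dvd h1
    obtain ⟨m, hm, hb⟩ := h p hp
    exfalso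
    have h2 := gcd_mem hb hnb
    have h3 : n ≤ m.gcd n := Nat.find_min' hex ⟨Nat.gcd_pos_of_pos_right _ hn0, h2⟩
    have h4 : m.gcd n = n := le_antisymm (Nat.gcd_le_right _ hn0) h3
    have h5 : n ∣ m := by rw [← h4]; exact Nat.gcd_dvd_left _ _
    exact (Nat.Prime.coprime_iff_not_dvd hp).1 hm.symm (hpn.trans h5)

end loc

section grp

variable {E : Type u} [Ring E]

/-- The data defining the group: for each prime `p` an element `w p` of `T` with an inverse `c p`
such that `p ^ 2 * c p` is in `T`. -/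
structure Data (T : Subring E) where
  /-- the local multiplier -/
  w : ℕ → E
  /-- its inverse -/
  c : ℕ → E
  hw : ∀ p : ℕ, p.Prime → w p ∈ T
  hc : ∀ p : ℕ, p.Prime → ((p ^ 2 : ℕ) : E) * c p ∈ T
  hwc : ∀ p : ℕ, p.Prime → w p * c p = 1
  hcw : ∀ p : ℕ, p.Prime → c p * w p = 1

variable {T : Subring E} (D : Data T)

/-- The group. -/
def Grp : AddSubgroup E where
  carrier := {b | ∀ p : ℕ, p.Prime → b * D.w p ∈ Loc T p}
  zero_mem' := fun p _ => by rw [zero_mul]; exact (Loc T p).zero_mem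
  add_mem' := fun ha hb p hp => by rw [add_mul]; exact (Loc T p).add_mem (ha p hp) (hb p hp)
  neg_mem' := fun ha p hp => by rw [neg_mul]; exact (Loc T p).neg_mem (ha p hp)

variable {D}

theorem mem_Grp {b : E} : b ∈ Grp D ↔ ∀ p : ℕ, p.Prime → b * D.w p ∈ Loc T p := Iff.rfl

theorem Grp_of_mem {b : E} (h : b ∈ T) : b ∈ Grp D :=
  fun p hp => Loc_of_mem (T.mul_mem h (D.hw p hp))

theorem Grp_mul {r b : E} (hr : r ∈ T) (h : b ∈ Grp D) : r * b ∈ Grp D := by
  intro p hp
  rw [mul_assoc]
  exact Loc_mul_left hr (h p hp)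

theorem c_mem {r : E} (hr : r ∈ T) {p : ℕ} (hp : p.Prime) : r * D.c p ∈ Grp D := by
  intro q hq
  by_cases hpq : q = p
  · subst hpq
    rw [mul_assoc, D.hcw q hq, mul_one]
    exact Loc_of_mem hr
  · have hcop : (p ^ 2).Coprime q :=
      Nat.Coprime.pow_left 2 ((Nat.coprime_primes hp hq).2 (fun h => hpq h.symm))
    refine ⟨p ^ 2, hcop, ?_⟩
    rw [← mul_assoc, ← mul_assoc, (Nat.cast_commute (p ^ 2) r).eq, mul_assoc r]
    exact T.mul_mem (T.mul_mem hr (D.hc p hp)) (D.hw q hq)

theorem mem_of_idealizer {a : E} (h : ∀ b ∈ Grp D, a * b ∈ Grp D) : a ∈ T := by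
  apply mem_of_Loc
  intro p hp
  have h1 := h (D.c p) (by simpa using c_mem (D := D) T.one_mem hp) p hp
  rwa [mul_assoc, D.hcw p hp, mul_one] at h1

theorem exists_nat_mul_mem {b : E} (h : b ∈ Grp D) : ∃ n : ℕ, 0 < n ∧ (n : E) * b ∈ T := by
  obtain ⟨m, hm, hb⟩ := h 2 Nat.prime_two
  refine ⟨m * 4, ?_, ?_⟩
  · have : m ≠ 0 := by rintro rfl; simp at hm
    omega
  · have h1 := T.mul_mem hb (D.hc 2 Nat.prime_two)
    have h2 : (m : E) * (b * D.w 2) * (((2 ^ 2 : ℕ) : E) * D.c 2) = ((m * 4 : ℕ) : E) * b := by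
      have h3 : (m : E) * (b * D.w 2) * (((2 ^ 2 : ℕ) : E) * D.c 2)
          = ((2 ^ 2 : ℕ) : E) * ((m : E) * (b * (D.w 2 * D.c 2))) := by
        rw [← mul_assoc, ← (Nat.cast_commute (2 ^ 2) ((m : E) * (b * D.w 2))).eq]
        simp only [mul_assoc]
      rw [h3, D.hwc 2 Nat.prime_two, mul_one, ← mul_assoc]
      congr 1
      rw [← Nat.cast_mul]
      congr 1
      omega
    rwa [h2] at h1

end grp

section main

variable {E : Type u} [Ring E] [Algebra ℚ E] {T : Subring E}

/-- No nonzero element of `T` is divisible by infinitely many primes. -/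
def Reduced (T : Subring E) : Prop :=
  ∀ b ∈ T, (∀ N : ℕ, ∃ p : ℕ, N < p ∧ p.Prime ∧ ∃ c ∈ T, b = p * c) → b = 0

theorem cast_cancel {n : ℕ} (hn : n ≠ 0) {a b : E} (h : (n : E) * a = n * b) : a = b := by
  have h1 : ((n : ℚ) • a) = (n : ℚ) • b := by
    rw [Algebra.smul_def, Algebra.smul_def, map_natCast]; exact h
  have h2 : (n : ℚ) ≠ 0 := by exact_mod_cast hn
  have h3 := congrArg (fun t => (n : ℚ)⁻¹ • t) h1
  simpa [smul_smul, inv_mul_cancel₀ h2] using h3

theorem Reduced.eq_zero (hT : Reduced T) {b : E} (hb : ∃ n : ℕ, 0 < n ∧ (n : E) * b ∈ T)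
    (h : ∀ N : ℕ, ∃ p : ℕ, N < p ∧ p.Prime ∧ ∃ d ∈ Loc T p, b = p * d) : b = 0 := by
  obtain ⟨n, hn, hnb⟩ := hb
  have h1 : (n : E) * b = 0 := by
    apply hT _ hnb
    intro N
    obtain ⟨p, hNp, hp, d, ⟨m, hm, hd⟩, hbd⟩ := h N
    refine ⟨p, hNp, hp, (m.gcdA p : E) * (n * (m * d)) + (m.gcdB p : E) * (n * b), ?_, ?_⟩
    · exact T.add_mem (T.mul_mem (intCast_mem T _) (T.mul_mem (natCast_mem T _) hd))
        (T.mul_mem (intCast_mem T _) hnb)
    · have h2 := congrArg (Int.cast : ℤ → E) (Nat.gcd_eq_gcd_ab m p)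
      rw [hm.gcd_eq_one] at h2
      push_cast at h2
      have h3 : (n : E) * b = ((m : E) * (m.gcdA p : E) + (p : E) * (m.gcdB p : E)) * (n * b) := by
        rw [← h2, one_mul]
      rw [mul_add]
      refine h3.trans ?_
      rw [add_mul]
      congr 1
      · rw [hbd]
        have e1 : (m : E) * (m.gcdA p : E) * ((n : E) * ((p : E) * d))
            = (p : E) * ((m.gcdA p : E) * ((n : E) * ((m : E) * d))) := by
          have c1 := (Nat.cast_commute p (n : E)).eq
          have c2 := (Nat.cast_commute p (m : E)).eq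
          have c3 := (Nat.cast_commute p (m.gcdA p : E)).eq
          have c4 := (Nat.cast_commute m (m.gcdA p : E)).eq
          have c5 := (Nat.cast_commute m (n : E)).eq
          calc (m : E) * (m.gcdA p : E) * ((n : E) * ((p : E) * d))
              = (m : E) * ((m.gcdA p : E) * (((n : E) * (p : E)) * d)) := by
                simp only [mul_assoc]
            _ = (m : E) * ((m.gcdA p : E) * (((p : E) * (n : E)) * d)) := by rw [c1]
            _ = (m : E) * (((m.gcdA p : E) * (p : E)) * ((n : E) * d)) := by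
                simp only [mul_assoc]
            _ = (m : E) * (((p : E) * (m.gcdA p : E)) * ((n : E) * d)) := by rw [c3]
            _ = ((m : E) * (p : E)) * ((m.gcdA p : E) * ((n : E) * d)) := by
                simp only [mul_assoc]
            _ = ((p : E) * (m : E)) * ((m.gcdA p : E) * ((n : E) * d)) := by rw [c2]
            _ = (p : E) * (((m : E) * (m.gcdA p : E)) * ((n : E) * d)) := by
                simp only [mul_assoc]
            _ = (p : E) * (((m.gcdA p : E) * (m : E)) * ((n : E) * d)) := by rw [c4]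
            _ = (p : E) * ((m.gcdA p : E) * (((m : E) * (n : E)) * d)) := by
                simp only [mul_assoc]
            _ = (p : E) * ((m.gcdA p : E) * (((n : E) * (m : E)) * d)) := by rw [c5]
            _ = _ := by simp only [mul_assoc]
        exact e1
      · rw [mul_assoc]
  apply cast_cancel hn.ne'
  rw [h1, mul_zero]

variable {D : Data T}

theorem coprime_of_lt {n p : ℕ} (hn : 0 < n) (hnp : n < p) (hp : p.Prime) : n.Coprime p :=
  ((Nat.Prime.coprime_iff_not_dvd hp).2 (fun h => absurd (Nat.le_of_dvd hn h) (by omega))).symm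

/-- The lemma for square-zero elements. -/
theorem square_zero (hT : Reduced T) {g : E} (hg : g ∈ T) (hgg : g * g = 0)
    (hinf : ∀ N : ℕ, ∃ p : ℕ, N < p ∧ p.Prime ∧ D.w p = p - g) (f : Grp D →+ Grp D)
    {x : E} (hx : x ∈ T) :
    (f ⟨x * g, Grp_of_mem (T.mul_mem hx hg)⟩ : E) = f ⟨x, Grp_of_mem hx⟩ * g := by
  set b1 : E := (f ⟨x, Grp_of_mem hx⟩ : E) with hb1
  set b2 : E := (f ⟨x * g, Grp_of_mem (T.mul_mem hx hg)⟩ : E) with hb2
  obtain ⟨n1, hn1, h1⟩ := exists_nat_mul_mem (f ⟨x, Grp_of_mem hx⟩).2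
  obtain ⟨n2, hn2, h2⟩ := exists_nat_mul_mem (f ⟨x * g, Grp_of_mem (T.mul_mem hx hg)⟩).2
  rw [← hb1] at h1
  rw [← hb2] at h2
  -- the key formula
  have key : ∀ p : ℕ, p.Prime → D.w p = p - g → ∃ l ∈ Loc T p,
      ((p : E) * b1 + b2) * (p - g) = ((p ^ 2 : ℕ) : E) * l := by
    intro p hp hwp
    let y : Grp D := ⟨x * D.c p, c_mem hx hp⟩
    refine ⟨(f y : E) * D.w p, (f y).2 p hp, ?_⟩
    have e1 : (p : E) * x + x * g = ((p ^ 2 : ℕ) : E) * (x * D.c p) := by
      have e2 : ((p ^ 2 : ℕ) : E) = (p + g) * (p - g) := by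
        have := (Nat.cast_commute p g).eq
        push_cast
        rw [add_mul, mul_sub, mul_sub, hgg, this, pow_two]
        abel
      have e3 : (p : E) * x + x * g = x * (p + g) := by
        rw [mul_add, (Nat.cast_commute p x).eq]
      rw [e3, ← mul_assoc, (Nat.cast_commute (p ^ 2) x).eq, mul_assoc, e2, ← hwp, mul_assoc,
        D.hwc p hp, mul_one]
    have e4 : (p : ℕ) • (⟨x, Grp_of_mem hx⟩ : Grp D) + ⟨x * g, Grp_of_mem (T.mul_mem hx hg)⟩
        = (p ^ 2 : ℕ) • y := by
      apply Subtype.ext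
      simp only [AddSubgroup.coe_add, AddSubgroup.coe_nsmul, nsmul_eq_mul, y]
      exact e1
    have e5 := congrArg (fun t => (f t : E)) e4
    simp only [map_add, map_nsmul, AddSubgroup.coe_add, AddSubgroup.coe_nsmul, nsmul_eq_mul] at e5
    rw [← hb1, ← hb2] at e5
    rw [e5, ← hwp, mul_assoc]
  have h3 : b2 * g = 0 := by
    apply hT.eq_zero
    · exact ⟨n2, hn2, by rw [← mul_assoc]; exact T.mul_mem h2 hg⟩
    · intro N
      obtain ⟨p, hNp, hp, hwp⟩ := hinf (N + n1 + n2)
      obtain ⟨l, hl, hl'⟩ := key p hp hwp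
      have hb1p : b1 ∈ Loc T p := ⟨n1, coprime_of_lt hn1 (by omega) hp, h1⟩
      have hb2p : b2 ∈ Loc T p := ⟨n2, coprime_of_lt hn2 (by omega) hp, h2⟩
      refine ⟨p, by omega, hp, (p : E) * b1 + b2 - b1 * g - p * l, ?_, ?_⟩
      · have hpT : (p : E) ∈ T := natCast_mem T p
        exact (Loc T p).sub_mem ((Loc T p).sub_mem ((Loc T p).add_mem (Loc_mul_left hpT hb1p) hb2p)
          (Loc_mul_right hg hb1p)) (Loc_mul_left hpT hl)
      · have e1 := (Nat.cast_commute p b1).eq
        have e2 := (Nat.cast_commute p b2).eq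
        have e3 : ((p : E) * b1 + b2) * (p - g) = (p : E) * ((p : E) * b1) + p * b2
            - p * (b1 * g) - b2 * g := by
          rw [add_mul, mul_sub, mul_sub, mul_assoc, ← e1, ← e2, mul_assoc]
          abel
        rw [e3] at hl'
        have e4 : ((p ^ 2 : ℕ) : E) * l = p * (p * l) := by
          push_cast
          rw [pow_two, mul_assoc]
        rw [e4] at hl'
        rw [mul_sub, mul_sub, mul_add, ← hl']
        abel
  have h4 : b2 - b1 * g = 0 := by
    apply hT.eq_zero
    · refine ⟨n1 * n2, Nat.mul_pos hn1 hn2, ?_⟩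
      have e1 : ((n1 * n2 : ℕ) : E) * (b2 - b1 * g) = n1 * (n2 * b2) - n2 * (n1 * b1 * g) := by
        push_cast
        rw [mul_sub, mul_assoc, mul_assoc]
        congr 1
        have := (Nat.cast_commute n1 (n2 : E)).eq
        rw [← mul_assoc, this]
        simp only [mul_assoc]
      rw [e1]
      exact T.sub_mem (T.mul_mem (natCast_mem T _) h2)
        (T.mul_mem (natCast_mem T _) (T.mul_mem h1 hg))
    · intro N
      obtain ⟨p, hNp, hp, hwp⟩ := hinf (N + n1 + n2)
      obtain ⟨l, hl, hl'⟩ := key p hp hwp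
      have hb1p : b1 ∈ Loc T p := ⟨n1, coprime_of_lt hn1 (by omega) hp, h1⟩
      refine ⟨p, by omega, hp, l - b1, (Loc T p).sub_mem hl hb1p, ?_⟩
      have hp0 : p ≠ 0 := hp.ne_zero
      apply cast_cancel hp0
      have e1 := (Nat.cast_commute p b1).eq
      have e2 := (Nat.cast_commute p b2).eq
      have e3 : ((p : E) * b1 + b2) * (p - g) = (p : E) * ((p : E) * b1) + p * b2
          - p * (b1 * g) - b2 * g := by
        rw [add_mul, mul_sub, mul_sub, mul_assoc, ← e1, ← e2, mul_assoc]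
        abel
      rw [e3, h3, sub_zero] at hl'
      have e4 : ((p ^ 2 : ℕ) : E) * l = p * (p * l) := by
        push_cast
        rw [pow_two, mul_assoc]
      rw [e4] at hl'
      rw [mul_sub, mul_sub, mul_sub, ← hl']
      abel
  exact sub_eq_zero.1 h4

/-- The lemma for idempotents. -/
theorem idempotent (hT : Reduced T) {g : E} (hg : g ∈ T) (hgg : g * g = g)
    (hinf : ∀ N : ℕ, ∃ p : ℕ, N < p ∧ p.Prime ∧ D.w p = 1 + (p - 1) * g) (f : Grp D →+ Grp D)
    {x : E} (hx : x ∈ T) :
    (f ⟨x * g, Grp_of_mem (T.mul_mem hx hg)⟩ : E) * (1 - g) = 0 := by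
  set b2 : E := (f ⟨x * g, Grp_of_mem (T.mul_mem hx hg)⟩ : E) with hb2
  obtain ⟨n2, hn2, h2⟩ := exists_nat_mul_mem (f ⟨x * g, Grp_of_mem (T.mul_mem hx hg)⟩).2
  rw [← hb2] at h2
  have h1g : (1 - g) ∈ T := T.sub_mem T.one_mem hg
  apply hT.eq_zero
  · exact ⟨n2, hn2, by rw [← mul_assoc]; exact T.mul_mem h2 h1g⟩
  · intro N
    obtain ⟨p, hNp, hp, hwp⟩ := hinf (N + n2)
    have hb2p : b2 ∈ Loc T p := ⟨n2, coprime_of_lt hn2 (by omega) hp, h2⟩
    let y : Grp D := ⟨x * g * D.c p, c_mem (T.mul_mem hx hg) hp⟩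
    have hgw : g * D.w p = p * g := by
      rw [hwp, mul_add, mul_one, ← mul_assoc, mul_sub, mul_one, ← (Nat.cast_commute p g).eq,
        sub_mul, mul_assoc, hgg]
      abel
    have e1 : x * g = (p : E) * (x * g * D.c p) := by
      have e2 : (p : E) * (x * g * D.c p) = x * (g * D.w p) * D.c p := by
        rw [hgw, ← mul_assoc, ← mul_assoc, (Nat.cast_commute p x).eq, mul_assoc x]
      rw [e2, mul_assoc, mul_assoc, D.hwc p hp, mul_one]
    have e4 : (⟨x * g, Grp_of_mem (T.mul_mem hx hg)⟩ : Grp D) = (p : ℕ) • y := by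
      apply Subtype.ext
      simp only [AddSubgroup.coe_nsmul, nsmul_eq_mul, y]
      exact e1
    have e5 : b2 = (p : E) * (f y : E) := by
      have := congrArg (fun t => (f t : E)) e4
      simp only [map_nsmul, AddSubgroup.coe_nsmul, nsmul_eq_mul] at this
      rw [← hb2] at this
      exact this
    refine ⟨p, by omega, hp, (f y : E) * D.w p - b2 * g, ?_, ?_⟩
    · exact (Loc T p).sub_mem ((f y).2 p hp) (Loc_mul_right hg hb2p)
    · have e6 := (Nat.cast_commute p b2).eq
      rw [mul_sub (p : E), ← mul_assoc (p : E) (f y : E), ← e5, hwp, mul_add, mul_one, sub_mul,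
        one_mul, mul_sub b2 _ g, mul_sub, mul_one, ← mul_assoc b2, ← e6]
      simp only [mul_assoc]
      abel

/-- The hypothesis on the generators and on the data. -/
def Good (G : Set E) (D : Data T) : Prop :=
  ∀ g ∈ G, (g * g = 0 ∧ ∀ N : ℕ, ∃ p : ℕ, N < p ∧ p.Prime ∧ D.w p = p - g) ∨
    (g * g = g ∧ (∀ N : ℕ, ∃ p : ℕ, N < p ∧ p.Prime ∧ D.w p = 1 + (p - 1) * g) ∧
      (g = 1 ∨ ∀ N : ℕ, ∃ p : ℕ, N < p ∧ p.Prime ∧ D.w p = 1 + (p - 1) * (1 - g)))

theorem comm_gen (hT : Reduced T) {G : Set E} (hG : Good G D) {g : E} (hgG : g ∈ G) (hg : g ∈ T)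
    (f : Grp D →+ Grp D) {x : E} (hx : x ∈ T) :
    (f ⟨x * g, Grp_of_mem (T.mul_mem hx hg)⟩ : E) = f ⟨x, Grp_of_mem hx⟩ * g := by
  rcases hG g hgG with ⟨h0, h1⟩ | ⟨h0, h1, h2 | h2⟩
  · exact square_zero hT hg h0 h1 f hx
  · subst h2
    have : (⟨x * 1, Grp_of_mem (T.mul_mem hx hg)⟩ : Grp D) = ⟨x, Grp_of_mem hx⟩ :=
      Subtype.ext (mul_one x)
    rw [this, mul_one]
  · have h1g : (1 - g) ∈ T := T.sub_mem T.one_mem hg
    have h3 := idempotent hT hg h0 h1 f hx
    have h4 := idempotent hT h1g (by rw [mul_sub, mul_one, sub_mul, one_mul, h0]; abel) h2 f hx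
    have e1 : (⟨x, Grp_of_mem hx⟩ : Grp D) = ⟨x * g, Grp_of_mem (T.mul_mem hx hg)⟩
        + ⟨x * (1 - g), Grp_of_mem (T.mul_mem hx h1g)⟩ := by
      apply Subtype.ext
      simp only [AddSubgroup.coe_add]
      rw [mul_sub, mul_one]; abel
    rw [e1, map_add, AddSubgroup.coe_add, add_mul]
    have h5 : (1 : E) - (1 - g) = g := by abel
    rw [h5] at h4
    rw [h4, add_zero]
    rw [mul_sub, mul_one, sub_eq_zero] at h3
    exact h3

theorem comm_all (hT : Reduced T) {G : Set E} (hG : Good G D) (hcl : T = Subring.closure G)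
    (f : Grp D →+ Grp D) {y : E} (hy : y ∈ T) : ∀ {x : E} (hx : x ∈ T),
    (f ⟨x * y, Grp_of_mem (T.mul_mem hx hy)⟩ : E) = f ⟨x, Grp_of_mem hx⟩ * y := by
  have hcl' : ∀ z, z ∈ Subring.closure G → z ∈ T := fun z hz => by rw [hcl]; exact hz
  have hy' : y ∈ Subring.closure G := by rw [← hcl]; exact hy
  have main : ∀ z (_ : z ∈ Subring.closure G), ∀ (x : E) (hx : x ∈ T) (hxz : x * z ∈ T),
      (f ⟨x * z, Grp_of_mem hxz⟩ : E) = f ⟨x, Grp_of_mem hx⟩ * z := by
    intro z hz
    induction hz using Subring.closure_induction with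
    | mem g hg =>
      intro x hx hxz
      exact comm_gen hT hG hg (hcl' g (Subring.subset_closure hg)) f hx
    | zero =>
      intro x hx hxz
      have : (⟨x * 0, Grp_of_mem hxz⟩ : Grp D) = 0 := Subtype.ext (mul_zero x)
      rw [this, map_zero, mul_zero]; rfl
    | one =>
      intro x hx hxz
      have : (⟨x * 1, Grp_of_mem hxz⟩ : Grp D) = ⟨x, Grp_of_mem hx⟩ := Subtype.ext (mul_one x)
      rw [this, mul_one]
    | add a b ha hb iha ihb =>
      intro x hx hxz
      have hxa : x * a ∈ T := T.mul_mem hx (hcl' a ha)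
      have hxb : x * b ∈ T := T.mul_mem hx (hcl' b hb)
      have : (⟨x * (a + b), Grp_of_mem hxz⟩ : Grp D)
          = ⟨x * a, Grp_of_mem hxa⟩ + ⟨x * b, Grp_of_mem hxb⟩ := Subtype.ext (mul_add x a b)
      rw [this, map_add, AddSubgroup.coe_add, iha x hx hxa, ihb x hx hxb, mul_add]
    | neg a ha iha =>
      intro x hx hxz
      have hxa : x * a ∈ T := T.mul_mem hx (hcl' a ha)
      have : (⟨x * (-a), Grp_of_mem hxz⟩ : Grp D) = -⟨x * a, Grp_of_mem hxa⟩ :=
        Subtype.ext (mul_neg x a)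
      rw [this, map_neg, AddSubgroup.coe_neg, iha x hx hxa, mul_neg]
    | mul a b ha hb iha ihb =>
      intro x hx hxz
      have hxa : x * a ∈ T := T.mul_mem hx (hcl' a ha)
      have hxab : x * a * b ∈ T := T.mul_mem hxa (hcl' b hb)
      have : (⟨x * (a * b), Grp_of_mem hxz⟩ : Grp D) = ⟨x * a * b, Grp_of_mem hxab⟩ :=
        Subtype.ext (mul_assoc x a b).symm
      rw [this, ihb (x * a) hxa hxab, iha x hx hxa, mul_assoc]
  intro x hx
  exact main y hy' x hx (T.mul_mem hx hy)

/-- Every endomorphism is the left multiplication by an element of `T`. -/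
theorem exists_mul (hT : Reduced T) {G : Set E} (hG : Good G D) (hcl : T = Subring.closure G)
    (f : Grp D →+ Grp D) : ∃ r ∈ T, ∀ a : Grp D, (f a : E) = r * a := by
  set r : E := (f ⟨1, Grp_of_mem T.one_mem⟩ : E) with hr
  have h1 : ∀ a : Grp D, (f a : E) = r * a := by
    intro a
    obtain ⟨n, hn, hna⟩ := exists_nat_mul_mem a.2
    apply cast_cancel hn.ne'
    have e1 := comm_all hT hG hcl f hna T.one_mem
    rw [← hr] at e1
    have e2 : (⟨1 * ((n : E) * (a : E)), Grp_of_mem (T.mul_mem T.one_mem hna)⟩ : Grp D)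
        = n • a := by
      apply Subtype.ext
      simp only [AddSubgroup.coe_nsmul, nsmul_eq_mul, one_mul]
    rw [e2, map_nsmul, AddSubgroup.coe_nsmul, nsmul_eq_mul] at e1
    rw [e1, ← mul_assoc, ← (Nat.cast_commute n r).eq, mul_assoc]
  refine ⟨r, ?_, h1⟩
  apply mem_of_idealizer (D := D)
  intro b hb
  rw [← h1 ⟨b, hb⟩]
  exact (f ⟨b, hb⟩).2

/-- The left multiplications. -/
def lmulHom (D : Data T) : T →+* AddMonoid.End (Grp D) where
  toFun r :=
    { toFun := fun a => ⟨r * a, Grp_mul r.2 a.2⟩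
      map_zero' := Subtype.ext (mul_zero _)
      map_add' := fun a b => Subtype.ext (mul_add _ _ _) }
  map_one' := by
    apply AddMonoidHom.ext
    intro a
    exact Subtype.ext (one_mul _)
  map_mul' r s := by
    apply AddMonoidHom.ext
    intro a
    exact Subtype.ext (mul_assoc _ _ _)
  map_zero' := by
    apply AddMonoidHom.ext
    intro a
    exact Subtype.ext (zero_mul _)
  map_add' r s := by
    apply AddMonoidHom.ext
    intro a
    exact Subtype.ext (add_mul _ _ _)

omit [Algebra ℚ E] in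
theorem lmulHom_apply (r : T) (a : Grp D) : ((lmulHom D r a : Grp D) : E) = r * a := rfl

theorem lmulHom_bijective (hT : Reduced T) {G : Set E} (hG : Good G D)
    (hcl : T = Subring.closure G) : Function.Bijective (lmulHom D) := by
  constructor
  · intro r s h
    have h1 := DFunLike.congr_fun h (⟨1, Grp_of_mem T.one_mem⟩ : Grp D)
    have h2 := congrArg Subtype.val h1
    apply Subtype.ext
    have h3 : (r : E) * 1 = s * 1 := h2
    simpa using h3
  · intro f
    obtain ⟨r, hr, h⟩ := exists_mul hT hG hcl f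
    refine ⟨⟨r, hr⟩, ?_⟩
    apply AddMonoidHom.ext
    intro a
    apply Subtype.ext
    exact (h a).symm

/-- The endomorphism ring of the group is `T`. -/
noncomputable def endEquiv (hT : Reduced T) {G : Set E} (hG : Good G D)
    (hcl : T = Subring.closure G) : T ≃+* AddMonoid.End (Grp D) :=
  RingEquiv.ofBijective (lmulHom D) (lmulHom_bijective hT hG hcl)

end main

section choice

variable {E : Type u} [Ring E] [Algebra ℚ E]

/-- The index of the generator attached to a prime. -/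
noncomputable def idx (p : ℕ) : ℕ := (Nat.unpair (Nat.count Nat.Prime p)).1

theorem exists_idx (i N : ℕ) : ∃ p : ℕ, N < p ∧ p.Prime ∧ idx p = i := by
  refine ⟨Nat.nth Nat.Prime (Nat.pair i (N + 1)), ?_, ?_, ?_⟩
  · have h1 : Nat.pair i (N + 1) ≤ Nat.nth Nat.Prime (Nat.pair i (N + 1)) :=
      (Nat.nth_strictMono Nat.infinite_setOfPred_prime).le_apply
    have h2 := Nat.right_le_pair i (N + 1)
    omega
  · exact Nat.nth_mem_of_infinite Nat.infinite_setOfPred_prime _
  · unfold idx
    rw [Nat.count_nth_of_infinite Nat.infinite_setOfPred_prime, Nat.unpair_pair]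

open Classical in
/-- The multiplier attached to a generator. -/
noncomputable def wt (v : E) (p : ℕ) : E := if v * v = 0 then p - v else 1 + (p - 1) * v

open Classical in
/-- The inverse of the multiplier attached to a generator. -/
noncomputable def ct (v : E) (p : ℕ) : E :=
  if v * v = 0 then ((p : ℚ) ^ 2)⁻¹ • ((p : E) + v) else (p : ℚ)⁻¹ • ((p : E) * (1 - v) + v)

/-- The data attached to a sequence of generators. -/
noncomputable def data (g : ℕ → E) (hg : ∀ i, g i * g i = 0 ∨ g i * g i = g i) :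
    Data (Subring.closure (Set.range g)) where
  w p := wt (g (idx p)) p
  c p := ct (g (idx p)) p
  hw p _ := by
    have h1 : g (idx p) ∈ Subring.closure (Set.range g) := Subring.subset_closure ⟨_, rfl⟩
    unfold wt
    split_ifs
    · exact Subring.sub_mem _ (natCast_mem _ _) h1
    · exact Subring.add_mem _ (Subring.one_mem _)
        (Subring.mul_mem _ (Subring.sub_mem _ (natCast_mem _ _) (Subring.one_mem _)) h1)
  hc p hp := by
    have h1 : g (idx p) ∈ Subring.closure (Set.range g) := Subring.subset_closure ⟨_, rfl⟩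
    have hp0 : (p : ℚ) ≠ 0 := by exact_mod_cast hp.ne_zero
    have e0 : ∀ z : E, ((p ^ 2 : ℕ) : E) * z = ((p : ℚ) ^ 2) • z := by
      intro z
      rw [Algebra.smul_def]
      congr 1
      push_cast
      simp
    unfold ct
    split_ifs
    · rw [e0, smul_smul, mul_inv_cancel₀ (pow_ne_zero 2 hp0), one_smul]
      exact Subring.add_mem _ (natCast_mem _ _) h1
    · have e1 : ((p : ℚ) ^ 2 * (p : ℚ)⁻¹) = p := by field_simp
      rw [e0, smul_smul, e1, Algebra.smul_def]
      have e2 : (algebraMap ℚ E) (p : ℚ) = (p : E) := by simp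
      rw [e2]
      exact Subring.mul_mem _ (natCast_mem _ _) (Subring.add_mem _
        (Subring.mul_mem _ (natCast_mem _ _) (Subring.sub_mem _ (Subring.one_mem _) h1)) h1)
  hwc p hp := by
    have hp0 : (p : ℚ) ≠ 0 := by exact_mod_cast hp.ne_zero
    set v := g (idx p) with hv
    have hpv := (Nat.cast_commute p v).eq
    unfold wt ct
    split_ifs with h
    · rw [mul_smul_comm, inv_smul_eq_iff₀ (pow_ne_zero 2 hp0)]
      have e1 : ((p : E) - v) * (p + v) = (p : E) ^ 2 := by
        rw [sub_mul, mul_add, mul_add, h, hpv, pow_two]; abel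
      rw [e1, Algebra.smul_def]
      simp
    · have h' : v * v = v := (hg _).resolve_left h
      rw [mul_smul_comm, inv_smul_eq_iff₀ hp0]
      have e1 : (1 + ((p : E) - 1) * v) * (p * (1 - v) + v) = (p : E) := by
        have a1 : v * ((p : E) * (1 - v) + v) = v := by
          rw [mul_add, ← mul_assoc, ← hpv, mul_assoc, mul_sub, mul_one, h']
          simp
        rw [add_mul, one_mul, mul_assoc, a1, mul_sub, mul_one, sub_mul, one_mul]
        abel
      rw [e1, Algebra.smul_def]
      simp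
  hcw p hp := by
    have hp0 : (p : ℚ) ≠ 0 := by exact_mod_cast hp.ne_zero
    set v := g (idx p) with hv
    have hpv := (Nat.cast_commute p v).eq
    unfold wt ct
    split_ifs with h
    · rw [smul_mul_assoc, inv_smul_eq_iff₀ (pow_ne_zero 2 hp0)]
      have e1 : ((p : E) + v) * (p - v) = (p : E) ^ 2 := by
        rw [add_mul, mul_sub, mul_sub, h, hpv, pow_two]; abel
      rw [e1, Algebra.smul_def]
      simp
    · have h' : v * v = v := (hg _).resolve_left h
      rw [smul_mul_assoc, inv_smul_eq_iff₀ hp0]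
      have e1 : ((p : E) * (1 - v) + v) * (1 + (p - 1) * v) = (p : E) := by
        have a1 : ((p : E) * (1 - v) + v) * v = v := by
          rw [add_mul, mul_assoc, sub_mul, one_mul, h']
          simp
        have a2 : ((p : E) - 1) * v = v * (p - 1) := by
          rw [sub_mul, mul_sub, hpv]; simp
        rw [mul_add, mul_one, a2, ← mul_assoc, a1, mul_sub, mul_sub, mul_one, mul_one, ← hpv]
        abel
      rw [e1, Algebra.smul_def]
      simp

theorem good_data (g : ℕ → E)
    (hg : ∀ i, g i * g i = 0 ∨ (g i * g i = g i ∧ ∃ j, g j = 1 - g i)) :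
    Good (Set.range g) (data g (fun i => (hg i).imp id And.left)) := by
  rintro _ ⟨i, rfl⟩
  by_cases h0 : g i * g i = 0
  · left
    refine ⟨h0, fun N => ?_⟩
    obtain ⟨p, hN, hp, hi⟩ := exists_idx i N
    refine ⟨p, hN, hp, ?_⟩
    change wt (g (idx p)) p = _
    rw [hi]
    exact if_pos h0
  · obtain ⟨h1, j, hj⟩ := (hg i).resolve_left h0
    right
    refine ⟨h1, fun N => ?_, ?_⟩
    · obtain ⟨p, hN, hp, hi⟩ := exists_idx i N
      refine ⟨p, hN, hp, ?_⟩
      change wt (g (idx p)) p = _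
      rw [hi]
      exact if_neg h0
    · by_cases h2 : g j * g j = 0
      · left
        have h3 : (1 - g i) * (1 - g i) = 1 - g i := by
          rw [mul_sub, mul_one, sub_mul, one_mul, h1]; abel
        rw [hj, h3] at h2
        exact (sub_eq_zero.1 h2).symm
      · right
        intro N
        obtain ⟨p, hN, hp, hi⟩ := exists_idx j N
        refine ⟨p, hN, hp, ?_⟩
        change wt (g (idx p)) p = _
        rw [hi, ← hj]
        exact if_neg h2

end choice

end Pool.Agent.Q119.Real
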