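import Pool.Agent.Q119.Real.Realize

set_option autoImplicit false

/-!
The six-dimensional rational algebra with basis `1, x, y, z, p, q` and products `x z = z x = p`,
`y z = z y = q`, `x y = p`, all other products of `x, y, z, p, q` being zero.
-/

namespace Pool.Agent.Q119.Real

/-- The six-dimensional algebra. The coordinates are those with respect to `1, x, y, z, p, q`. -/
@[ext]
structure Six where
  /-- the coordinate at `1` -/
  a : ℚ
  /-- the coordinate at `x` -/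
  x : ℚ
  /-- the coordinate at `y` -/
  y : ℚ
  /-- the coordinate at `z` -/
  z : ℚ
  /-- the coordinate at `p` -/
  p : ℚ
  /-- the coordinate at `q` -/
  q : ℚ

namespace Six

instance : Zero Six := ⟨⟨0, 0, 0, 0, 0, 0⟩⟩
instance : One Six := ⟨⟨1, 0, 0, 0, 0, 0⟩⟩
instance : Add Six :=
  ⟨fun s t => ⟨s.a + t.a, s.x + t.x, s.y + t.y, s.z + t.z, s.p + t.p, s.q + t.q⟩⟩
instance : Neg Six := ⟨fun s => ⟨-s.a, -s.x, -s.y, -s.z, -s.p, -s.q⟩⟩
instance : Sub Six :=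
  ⟨fun s t => ⟨s.a - t.a, s.x - t.x, s.y - t.y, s.z - t.z, s.p - t.p, s.q - t.q⟩⟩
instance : SMul ℚ Six := ⟨fun c s => ⟨c * s.a, c * s.x, c * s.y, c * s.z, c * s.p, c * s.q⟩⟩
instance : SMul ℕ Six := ⟨fun c s => ⟨c * s.a, c * s.x, c * s.y, c * s.z, c * s.p, c * s.q⟩⟩
instance : SMul ℤ Six := ⟨fun c s => ⟨c * s.a, c * s.x, c * s.y, c * s.z, c * s.p, c * s.q⟩⟩
instance : Mul Six :=
  ⟨fun s t => ⟨s.a * t.a, s.a * t.x + s.x * t.a, s.a * t.y + s.y * t.a, s.a * t.z + s.z * t.a,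
    s.a * t.p + s.p * t.a + s.x * t.z + s.z * t.x + s.x * t.y,
    s.a * t.q + s.q * t.a + s.y * t.z + s.z * t.y⟩⟩

@[simp] theorem zero_a : (0 : Six).a = 0 := rfl
@[simp] theorem zero_x : (0 : Six).x = 0 := rfl
@[simp] theorem zero_y : (0 : Six).y = 0 := rfl
@[simp] theorem zero_z : (0 : Six).z = 0 := rfl
@[simp] theorem zero_p : (0 : Six).p = 0 := rfl
@[simp] theorem zero_q : (0 : Six).q = 0 := rfl
@[simp] theorem one_a : (1 : Six).a = 1 := rfl
@[simp] theorem one_x : (1 : Six).x = 0 := rfl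
@[simp] theorem one_y : (1 : Six).y = 0 := rfl
@[simp] theorem one_z : (1 : Six).z = 0 := rfl
@[simp] theorem one_p : (1 : Six).p = 0 := rfl
@[simp] theorem one_q : (1 : Six).q = 0 := rfl
@[simp] theorem add_a (s t : Six) : (s + t).a = s.a + t.a := rfl
@[simp] theorem add_x (s t : Six) : (s + t).x = s.x + t.x := rfl
@[simp] theorem add_y (s t : Six) : (s + t).y = s.y + t.y := rfl
@[simp] theorem add_z (s t : Six) : (s + t).z = s.z + t.z := rfl
@[simp] theorem add_p (s t : Six) : (s + t).p = s.p + t.p := rfl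
@[simp] theorem add_q (s t : Six) : (s + t).q = s.q + t.q := rfl
@[simp] theorem neg_a (s : Six) : (-s).a = -s.a := rfl
@[simp] theorem neg_x (s : Six) : (-s).x = -s.x := rfl
@[simp] theorem neg_y (s : Six) : (-s).y = -s.y := rfl
@[simp] theorem neg_z (s : Six) : (-s).z = -s.z := rfl
@[simp] theorem neg_p (s : Six) : (-s).p = -s.p := rfl
@[simp] theorem neg_q (s : Six) : (-s).q = -s.q := rfl
@[simp] theorem sub_a (s t : Six) : (s - t).a = s.a - t.a := rfl
@[simp] theorem sub_x (s t : Six) : (s - t).x = s.x - t.x := rfl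
@[simp] theorem sub_y (s t : Six) : (s - t).y = s.y - t.y := rfl
@[simp] theorem sub_z (s t : Six) : (s - t).z = s.z - t.z := rfl
@[simp] theorem sub_p (s t : Six) : (s - t).p = s.p - t.p := rfl
@[simp] theorem sub_q (s t : Six) : (s - t).q = s.q - t.q := rfl
@[simp] theorem smul_a (c : ℚ) (t : Six) : (c • t).a = c * t.a := rfl
@[simp] theorem smul_x (c : ℚ) (t : Six) : (c • t).x = c * t.x := rfl
@[simp] theorem smul_y (c : ℚ) (t : Six) : (c • t).y = c * t.y := rfl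
@[simp] theorem smul_z (c : ℚ) (t : Six) : (c • t).z = c * t.z := rfl
@[simp] theorem smul_p (c : ℚ) (t : Six) : (c • t).p = c * t.p := rfl
@[simp] theorem smul_q (c : ℚ) (t : Six) : (c • t).q = c * t.q := rfl
@[simp] theorem nsmul_a (c : ℕ) (t : Six) : (c • t).a = c * t.a := rfl
@[simp] theorem nsmul_x (c : ℕ) (t : Six) : (c • t).x = c * t.x := rfl
@[simp] theorem nsmul_y (c : ℕ) (t : Six) : (c • t).y = c * t.y := rfl
@[simp] theorem nsmul_z (c : ℕ) (t : Six) : (c • t).z = c * t.z := rfl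
@[simp] theorem nsmul_p (c : ℕ) (t : Six) : (c • t).p = c * t.p := rfl
@[simp] theorem nsmul_q (c : ℕ) (t : Six) : (c • t).q = c * t.q := rfl
@[simp] theorem zsmul_a (c : ℤ) (t : Six) : (c • t).a = c * t.a := rfl
@[simp] theorem zsmul_x (c : ℤ) (t : Six) : (c • t).x = c * t.x := rfl
@[simp] theorem zsmul_y (c : ℤ) (t : Six) : (c • t).y = c * t.y := rfl
@[simp] theorem zsmul_z (c : ℤ) (t : Six) : (c • t).z = c * t.z := rfl
@[simp] theorem zsmul_p (c : ℤ) (t : Six) : (c • t).p = c * t.p := rfl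
@[simp] theorem zsmul_q (c : ℤ) (t : Six) : (c • t).q = c * t.q := rfl
@[simp] theorem mul_a (s t : Six) : (s * t).a = s.a * t.a := rfl
@[simp] theorem mul_x (s t : Six) : (s * t).x = s.a * t.x + s.x * t.a := rfl
@[simp] theorem mul_y (s t : Six) : (s * t).y = s.a * t.y + s.y * t.a := rfl
@[simp] theorem mul_z (s t : Six) : (s * t).z = s.a * t.z + s.z * t.a := rfl
@[simp] theorem mul_p (s t : Six) :
    (s * t).p = s.a * t.p + s.p * t.a + s.x * t.z + s.z * t.x + s.x * t.y := rfl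
@[simp] theorem mul_q (s t : Six) : (s * t).q = s.a * t.q + s.q * t.a + s.y * t.z + s.z * t.y := rfl

/-- The underlying coordinates. -/
def toFun (s : Six) : ℚ × ℚ × ℚ × ℚ × ℚ × ℚ := (s.a, s.x, s.y, s.z, s.p, s.q)

theorem toFun_injective : Function.Injective toFun := by
  intro s t h
  simp only [toFun, Prod.mk.injEq] at h
  obtain ⟨h1, h2, h3, h4, h5, h6⟩ := h
  exact Six.ext h1 h2 h3 h4 h5 h6

instance : AddCommGroup Six :=
  toFun_injective.addCommGroup toFun rfl (fun _ _ => rfl) (fun _ => rfl) (fun _ _ => rfl)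
    (fun s n => by simp [toFun]) (fun s n => by simp [toFun])

instance : Ring Six :=
  { (inferInstance : AddCommGroup Six), (inferInstance : Mul Six), (inferInstance : One Six) with
    left_distrib := fun x y z => by apply Six.ext <;> simp <;> ring
    right_distrib := fun x y z => by apply Six.ext <;> simp <;> ring
    zero_mul := fun x => by apply Six.ext <;> simp
    mul_zero := fun x => by apply Six.ext <;> simp
    mul_assoc := fun x y z => by apply Six.ext <;> simp <;> ring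
    one_mul := fun x => by apply Six.ext <;> simp
    mul_one := fun x => by apply Six.ext <;> simp }

instance : Module ℚ Six :=
  { one_smul := fun x => by apply Six.ext <;> simp
    mul_smul := fun c d x => by apply Six.ext <;> simp <;> ring
    smul_zero := fun c => by apply Six.ext <;> simp
    smul_add := fun c x y => by apply Six.ext <;> simp <;> ring
    add_smul := fun c d x => by apply Six.ext <;> simp <;> ring
    zero_smul := fun x => by apply Six.ext <;> simp }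

instance : Algebra ℚ Six :=
  Algebra.ofModule (fun c x y => by apply Six.ext <;> simp <;> ring)
    (fun c x y => by apply Six.ext <;> simp <;> ring)

/-- The linear equivalence with the coordinate space. -/
def equivFun : Six ≃ₗ[ℚ] (ℚ × ℚ × ℚ × ℚ × ℚ × ℚ) where
  toFun := toFun
  invFun t := ⟨t.1, t.2.1, t.2.2.1, t.2.2.2.1, t.2.2.2.2.1, t.2.2.2.2.2⟩
  left_inv _ := rfl
  right_inv _ := rfl
  map_add' _ _ := rfl
  map_smul' _ _ := rfl

theorem finrank_eq : Module.finrank ℚ Six = 6 := by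
  rw [equivFun.finrank_eq]
  simp

/-- Elements without `x`- and `y`-coordinates are central. -/
theorem central (s : Six) (hx : s.x = 0) (hy : s.y = 0) (t : Six) : s * t = t * s := by
  apply Six.ext <;> simp [hx, hy] <;> ring

/-- The generator `x`. -/
def X : Six := ⟨0, 1, 0, 0, 0, 0⟩
/-- The generator `y`. -/
def Y : Six := ⟨0, 0, 1, 0, 0, 0⟩
/-- The generator `z`. -/
def Z : Six := ⟨0, 0, 0, 1, 0, 0⟩

theorem X_sq : X * X = 0 := by apply Six.ext <;> simp [X]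
theorem Y_sq : Y * Y = 0 := by apply Six.ext <;> simp [Y]
theorem Z_sq : Z * Z = 0 := by apply Six.ext <;> simp [Z]
theorem X_ne : X * Y ≠ Y * X := by
  intro h
  have := congrArg Six.p h
  simp [X, Y] at this

@[simp] theorem cast_a (n : ℕ) : (n : Six).a = n := by
  induction n with
  | zero => simp
  | succ n ih => simp [ih]
@[simp] theorem cast_x (n : ℕ) : (n : Six).x = 0 := by
  induction n with
  | zero => simp
  | succ n ih => simp [ih]
@[simp] theorem cast_y (n : ℕ) : (n : Six).y = 0 := by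
  induction n with
  | zero => simp
  | succ n ih => simp [ih]
@[simp] theorem cast_z (n : ℕ) : (n : Six).z = 0 := by
  induction n with
  | zero => simp
  | succ n ih => simp [ih]
@[simp] theorem cast_p (n : ℕ) : (n : Six).p = 0 := by
  induction n with
  | zero => simp
  | succ n ih => simp [ih]
@[simp] theorem cast_q (n : ℕ) : (n : Six).q = 0 := by
  induction n with
  | zero => simp
  | succ n ih => simp [ih]

@[simp] theorem icast_a (n : ℤ) : (n : Six).a = n := by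
  obtain ⟨m, rfl | rfl⟩ := n.eq_nat_or_neg <;> simp
@[simp] theorem icast_x (n : ℤ) : (n : Six).x = 0 := by
  obtain ⟨m, rfl | rfl⟩ := n.eq_nat_or_neg <;> simp
@[simp] theorem icast_y (n : ℤ) : (n : Six).y = 0 := by
  obtain ⟨m, rfl | rfl⟩ := n.eq_nat_or_neg <;> simp
@[simp] theorem icast_z (n : ℤ) : (n : Six).z = 0 := by
  obtain ⟨m, rfl | rfl⟩ := n.eq_nat_or_neg <;> simp
@[simp] theorem icast_p (n : ℤ) : (n : Six).p = 0 := by
  obtain ⟨m, rfl | rfl⟩ := n.eq_nat_or_neg <;> simp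
@[simp] theorem icast_q (n : ℤ) : (n : Six).q = 0 := by
  obtain ⟨m, rfl | rfl⟩ := n.eq_nat_or_neg <;> simp

/-- The subring of the elements with integer coordinates. -/
def Int6 : Subring Six where
  carrier := {s | (∃ m : ℤ, s.a = m) ∧ (∃ m : ℤ, s.x = m) ∧ (∃ m : ℤ, s.y = m) ∧
    (∃ m : ℤ, s.z = m) ∧ (∃ m : ℤ, s.p = m) ∧ (∃ m : ℤ, s.q = m)}
  zero_mem' := ⟨⟨0, by simp⟩, ⟨0, by simp⟩, ⟨0, by simp⟩, ⟨0, by simp⟩, ⟨0, by simp⟩, ⟨0, by simp⟩⟩
  one_mem' := ⟨⟨1, by simp⟩, ⟨0, by simp⟩, ⟨0, by simp⟩, ⟨0, by simp⟩, ⟨0, by simp⟩, ⟨0, by simp⟩⟩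
  neg_mem' := by
    rintro s ⟨⟨a, ha⟩, ⟨x, hx⟩, ⟨y, hy⟩, ⟨z, hz⟩, ⟨p, hp⟩, ⟨q, hq⟩⟩
    exact ⟨⟨-a, by simp [ha]⟩, ⟨-x, by simp [hx]⟩, ⟨-y, by simp [hy]⟩, ⟨-z, by simp [hz]⟩,
      ⟨-p, by simp [hp]⟩, ⟨-q, by simp [hq]⟩⟩
  add_mem' := by
    rintro s t ⟨⟨a, ha⟩, ⟨x, hx⟩, ⟨y, hy⟩, ⟨z, hz⟩, ⟨p, hp⟩, ⟨q, hq⟩⟩
      ⟨⟨a', ha'⟩, ⟨x', hx'⟩, ⟨y', hy'⟩, ⟨z', hz'⟩, ⟨p', hp'⟩, ⟨q', hq'⟩⟩
    exact ⟨⟨a + a', by simp [ha, ha']⟩, ⟨x + x', by simp [hx, hx']⟩, ⟨y + y', by simp [hy, hy']⟩,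
      ⟨z + z', by simp [hz, hz']⟩, ⟨p + p', by simp [hp, hp']⟩, ⟨q + q', by simp [hq, hq']⟩⟩
  mul_mem' := by
    rintro s t ⟨⟨a, ha⟩, ⟨x, hx⟩, ⟨y, hy⟩, ⟨z, hz⟩, ⟨p, hp⟩, ⟨q, hq⟩⟩
      ⟨⟨a', ha'⟩, ⟨x', hx'⟩, ⟨y', hy'⟩, ⟨z', hz'⟩, ⟨p', hp'⟩, ⟨q', hq'⟩⟩
    exact ⟨⟨a * a', by simp [ha, ha']⟩, ⟨a * x' + x * a', by simp [ha, ha', hx, hx']⟩,
      ⟨a * y' + y * a', by simp [ha, ha', hy, hy']⟩, ⟨a * z' + z * a', by simp [ha, ha', hz, hz']⟩,
      ⟨a * p' + p * a' + x * z' + z * x' + x * y', by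
        simp [ha, ha', hx, hx', hy', hz, hz', hp, hp']⟩,
      ⟨a * q' + q * a' + y * z' + z * y', by simp [ha, ha', hy, hy', hz, hz', hq, hq']⟩⟩

/-- An integer divisible by arbitrarily large numbers vanishes. -/
theorem int_eq_zero {r : ℚ} {k : ℤ} (hk : r = k)
    (h : ∀ N : ℕ, ∃ p : ℕ, N < p ∧ ∃ m : ℤ, r = p * m) : r = 0 := by
  obtain ⟨p, hp, m, hm⟩ := h k.natAbs
  have h1 : k = p * m := by
    have : ((k : ℤ) : ℚ) = ((p * m : ℤ) : ℚ) := by
      rw [← hk, hm]; push_cast; ring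
    exact_mod_cast this
  have h2 : k = 0 := by
    apply Int.eq_zero_of_abs_lt_dvd (m := p) ⟨m, h1⟩
    rw [Int.abs_eq_natAbs]
    exact_mod_cast hp
  rw [hk, h2]; simp

theorem reduced_Int6 (b : Six) (hb : b ∈ Int6)
    (h : ∀ N : ℕ, ∃ p : ℕ, N < p ∧ ∃ c ∈ Int6, b = p * c) : b = 0 := by
  obtain ⟨⟨a, ha⟩, ⟨x, hx⟩, ⟨y, hy⟩, ⟨z, hz⟩, ⟨p, hp⟩, ⟨q, hq⟩⟩ := hb
  apply Six.ext
  · apply int_eq_zero ha
    intro N
    obtain ⟨p, hN, c, ⟨⟨m, hm⟩, _⟩, hc⟩ := h N
    exact ⟨p, hN, m, by rw [hc]; simp [hm]⟩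
  · apply int_eq_zero hx
    intro N
    obtain ⟨p, hN, c, ⟨_, ⟨m, hm⟩, _⟩, hc⟩ := h N
    exact ⟨p, hN, m, by rw [hc]; simp [hm]⟩
  · apply int_eq_zero hy
    intro N
    obtain ⟨p, hN, c, ⟨_, _, ⟨m, hm⟩, _⟩, hc⟩ := h N
    exact ⟨p, hN, m, by rw [hc]; simp [hm]⟩
  · apply int_eq_zero hz
    intro N
    obtain ⟨p, hN, c, ⟨_, _, _, ⟨m, hm⟩, _⟩, hc⟩ := h N
    exact ⟨p, hN, m, by rw [hc]; simp [hm]⟩
  · apply int_eq_zero hp
    intro N
    obtain ⟨p, hN, c, ⟨_, _, _, _, ⟨m, hm⟩, _⟩, hc⟩ := h N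
    exact ⟨p, hN, m, by rw [hc]; simp [hm]⟩
  · apply int_eq_zero hq
    intro N
    obtain ⟨p, hN, c, ⟨_, _, _, _, _, ⟨m, hm⟩⟩, hc⟩ := h N
    exact ⟨p, hN, m, by rw [hc]; simp [hm]⟩

theorem X_mem : X ∈ Int6 :=
  ⟨⟨0, by simp [X]⟩, ⟨1, by simp [X]⟩, ⟨0, by simp [X]⟩, ⟨0, by simp [X]⟩, ⟨0, by simp [X]⟩,
    ⟨0, by simp [X]⟩⟩
theorem Y_mem : Y ∈ Int6 :=
  ⟨⟨0, by simp [Y]⟩, ⟨0, by simp [Y]⟩, ⟨1, by simp [Y]⟩, ⟨0, by simp [Y]⟩, ⟨0, by simp [Y]⟩,
    ⟨0, by simp [Y]⟩⟩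
theorem Z_mem : Z ∈ Int6 :=
  ⟨⟨0, by simp [Z]⟩, ⟨0, by simp [Z]⟩, ⟨0, by simp [Z]⟩, ⟨1, by simp [Z]⟩, ⟨0, by simp [Z]⟩,
    ⟨0, by simp [Z]⟩⟩

/-- A multiple of an element with numerical square in the ring. -/
theorem almost_idempotent {s : Six} {n : ℕ} (hn : 0 < n) (h : s * s = n * s) :
    s = 0 ∨ s = n := by
  have hn0 : (n : ℚ) ≠ 0 := by exact_mod_cast hn.ne'
  have ha := congrArg Six.a h
  have hx := congrArg Six.x h
  have hy := congrArg Six.y h
  have hz := congrArg Six.z h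
  have hp := congrArg Six.p h
  have hq := congrArg Six.q h
  simp only [mul_a, mul_x, mul_y, mul_z, mul_p, mul_q, cast_a, cast_x, cast_y, cast_z, cast_p,
    cast_q, zero_mul, add_zero] at ha hx hy hz hp hq
  have h0 : s.a = 0 ∨ s.a = n := by
    have : s.a * (s.a - n) = 0 := by linarith
    rcases mul_eq_zero.1 this with h | h
    · exact Or.inl h
    · exact Or.inr (by linarith)
  rcases h0 with h0 | h0
  · left
    have h1 : s.x = 0 := by
      have : (n : ℚ) * s.x = 0 := by rw [← hx, h0]; ring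
      exact (mul_eq_zero.1 this).resolve_left hn0
    have h2 : s.y = 0 := by
      have : (n : ℚ) * s.y = 0 := by rw [← hy, h0]; ring
      exact (mul_eq_zero.1 this).resolve_left hn0
    have h3 : s.z = 0 := by
      have : (n : ℚ) * s.z = 0 := by rw [← hz, h0]; ring
      exact (mul_eq_zero.1 this).resolve_left hn0
    have h4 : s.p = 0 := by
      have : (n : ℚ) * s.p = 0 := by rw [← hp, h0, h1, h2, h3]; ring
      exact (mul_eq_zero.1 this).resolve_left hn0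
    have h5 : s.q = 0 := by
      have : (n : ℚ) * s.q = 0 := by rw [← hq, h0, h2, h3]; ring
      exact (mul_eq_zero.1 this).resolve_left hn0
    exact Six.ext h0 h1 h2 h3 h4 h5
  · right
    have h1 : s.x = 0 := by
      have : (n : ℚ) * s.x = 0 := by rw [h0] at hx; linarith
      exact (mul_eq_zero.1 this).resolve_left hn0
    have h2 : s.y = 0 := by
      have : (n : ℚ) * s.y = 0 := by rw [h0] at hy; linarith
      exact (mul_eq_zero.1 this).resolve_left hn0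
    have h3 : s.z = 0 := by
      have : (n : ℚ) * s.z = 0 := by rw [h0] at hz; linarith
      exact (mul_eq_zero.1 this).resolve_left hn0
    have h4 : s.p = 0 := by
      have : (n : ℚ) * s.p = 0 := by rw [h0, h1, h2, h3] at hp; linarith
      exact (mul_eq_zero.1 this).resolve_left hn0
    have h5 : s.q = 0 := by
      have : (n : ℚ) * s.q = 0 := by rw [h0, h2, h3] at hq; linarith
      exact (mul_eq_zero.1 this).resolve_left hn0
    apply Six.ext <;> simp [h0, h1, h2, h3, h4, h5]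

end Six

end Pool.Agent.Q119.Real
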