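import Pool.Agent.Q119.Real.Realize

set_option autoImplicit false

/-!
The infinite tensor power of the ring with basis `1, x, y, z, p, p', q` and products
`x y = p`, `x z = z x = p'`, `y z = z y = q` (all other products being zero), acting on the functions
on the configurations.
-/

namespace Pool.Agent.Q119.Real.Tensor

/-- The configurations. -/
abbrev Cfg : Type := ℕ → Fin 7

/-- The functions on the configurations. -/
abbrev W : Type := Cfg → ℚ

/-- The algebra of operators. -/
abbrev E : Type := Module.End ℚ W

/-- The operator given by a function with values in `Option (Fin 7)` at a site. -/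
def P (i : ℕ) (h : Fin 7 → Option (Fin 7)) : E where
  toFun f c := (h (c i)).elim 0 (fun b => f (Function.update c i b))
  map_add' f g := by
    funext c
    change (h (c i)).elim 0 (fun b => (f + g) (Function.update c i b))
      = (h (c i)).elim 0 (fun b => f (Function.update c i b))
        + (h (c i)).elim 0 (fun b => g (Function.update c i b))
    cases h (c i) <;> simp
  map_smul' r f := by
    funext c
    change (h (c i)).elim 0 (fun b => (r • f) (Function.update c i b))
      = r * (h (c i)).elim 0 (fun b => f (Function.update c i b))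
    cases h (c i) <;> simp

theorem P_apply (i : ℕ) (h : Fin 7 → Option (Fin 7)) (f : W) (c : Cfg) :
    P i h f c = (h (c i)).elim 0 (fun b => f (Function.update c i b)) := rfl

/-- Composition of functions with values in `Option (Fin 7)`. -/
def cmp (h g : Fin 7 → Option (Fin 7)) : Fin 7 → Option (Fin 7) := fun a => (h a).bind g

theorem P_mul (i : ℕ) (h g : Fin 7 → Option (Fin 7)) : P i h * P i g = P i (cmp h g) := by
  apply LinearMap.ext
  intro f
  funext c
  change P i h (P i g f) c = P i (cmp h g) f c
  rw [P_apply, P_apply, cmp]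
  cases h (c i) with
  | none => rfl
  | some b =>
    simp only [Option.elim_some, Option.bind_some, P_apply, Function.update_self,
      Function.update_idem]

theorem P_comm {i j : ℕ} (hij : i ≠ j) (h g : Fin 7 → Option (Fin 7)) :
    P i h * P j g = P j g * P i h := by
  apply LinearMap.ext
  intro f
  funext c
  change P i h (P j g f) c = P j g (P i h f) c
  rw [P_apply, P_apply]
  cases h1 : h (c i) with
  | none =>
    cases h2 : g (c j) with
    | none => rfl
    | some b =>
      simp only [Option.elim_some, Option.elim_none, P_apply]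
      rw [Function.update_of_ne hij, h1]
      rfl
  | some a =>
    cases h2 : g (c j) with
    | none =>
      simp only [Option.elim_some, Option.elim_none, P_apply]
      rw [Function.update_of_ne hij.symm, h2]
      rfl
    | some b =>
      simp only [Option.elim_some, P_apply]
      rw [Function.update_of_ne hij.symm, h2, Function.update_of_ne hij, h1]
      simp only [Option.elim_some]
      rw [Function.update_comm hij]

/-- The left multiplication by `x`. -/
def fx : Fin 7 → Option (Fin 7) := ![none, some 0, none, none, some 2, some 3, none]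
/-- The left multiplication by `y`. -/
def fy : Fin 7 → Option (Fin 7) := ![none, none, some 0, none, none, none, some 3]
/-- The multiplication by `z`. -/
def fz : Fin 7 → Option (Fin 7) := ![none, none, none, some 0, none, some 1, some 2]
/-- The right multiplication by `x`. -/
def gx : Fin 7 → Option (Fin 7) := ![none, some 0, none, none, none, some 3, none]
/-- The right multiplication by `y`. -/
def gy : Fin 7 → Option (Fin 7) := ![none, none, some 0, none, some 1, none, some 3]
/-- The matrix units. -/
def mu (k l : Fin 7) : Fin 7 → Option (Fin 7) := fun a => if a = k then some l else none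
/-- The zero function. -/
def fo : Fin 7 → Option (Fin 7) := fun _ => none

theorem P_fo (i : ℕ) : P i fo = 0 := by
  apply LinearMap.ext
  intro f
  funext c
  rfl

theorem xx : cmp fx fx = fo := by decide
theorem yy : cmp fy fy = fo := by decide
theorem zz : cmp fz fz = fo := by decide
theorem xz : cmp fx fz = cmp fz fx := by decide
theorem yz : cmp fy fz = cmp fz fy := by decide
theorem yx : cmp fy fx = fo := by decide
theorem xgx : cmp fx gx = cmp gx fx := by decide
theorem xgy : cmp fx gy = cmp gy fx := by decide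
theorem ygx : cmp fy gx = cmp gx fy := by decide
theorem ygy : cmp fy gy = cmp gy fy := by decide
theorem zgx : cmp fz gx = cmp gx fz := by decide
theorem zgy : cmp fz gy = cmp gy fz := by decide
theorem x00 : cmp fx (mu 0 0) = cmp gx (mu 0 0) := by decide
theorem y00 : cmp fy (mu 0 0) = cmp gy (mu 0 0) := by decide
theorem c46 : cmp (mu 4 6) fz = mu 4 2 := by decide
theorem c45 : cmp (mu 4 5) fz = mu 4 1 := by decide
theorem m1 : cmp gx (mu 0 1) = mu 1 1 := by decide
theorem m2 : cmp gy (mu 0 2) = mu 2 2 := by decide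
theorem m3 : cmp fz (mu 0 3) = mu 3 3 := by decide
theorem m4 : cmp gy (cmp gx (mu 0 4)) = mu 4 4 := by decide
theorem m5 : cmp fz (cmp gx (mu 0 5)) = mu 5 5 := by decide
theorem m6 : cmp fz (cmp gy (mu 0 6)) = mu 6 6 := by decide
theorem m0 (t : Fin 7) : cmp (mu 0 0) (mu 0 t) = mu 0 t := by revert t; decide

theorem fx_eq (i : ℕ) : P i fx = P i gx + P i (mu 4 2) := by
  apply LinearMap.ext
  intro f
  funext c
  rw [LinearMap.add_apply, Pi.add_apply, P_apply, P_apply, P_apply]
  generalize c i = a
  fin_cases a <;> simp [fx, gx, mu]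

theorem gy_eq (i : ℕ) : P i gy = P i fy + P i (mu 4 1) := by
  apply LinearMap.ext
  intro f
  funext c
  rw [LinearMap.add_apply, Pi.add_apply, P_apply, P_apply, P_apply]
  generalize c i = a
  fin_cases a <;> simp [fy, gy, mu]

theorem one_eq (i : ℕ) : (1 : E) = P i (mu 0 0) + P i (mu 1 1) + P i (mu 2 2) + P i (mu 3 3)
    + P i (mu 4 4) + P i (mu 5 5) + P i (mu 6 6) := by
  apply LinearMap.ext
  intro f
  funext c
  simp only [LinearMap.add_apply, Pi.add_apply, P_apply, Module.End.one_apply]
  have h7 : c i = 0 ∨ c i = 1 ∨ c i = 2 ∨ c i = 3 ∨ c i = 4 ∨ c i = 5 ∨ c i = 6 := by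
    generalize c i = a
    revert a
    decide
  have hu : ∀ a, c i = a → Function.update c i a = c := by
    intro a ha; rw [← ha, Function.update_eq_self]
  rcases h7 with h | h | h | h | h | h | h <;> simp [mu, h, hu _ h]

theorem detect {D : E} {i : ℕ} (h1 : D * P i gx = P i gx * D) (h2 : D * P i gy = P i gy * D)
    (h3 : D * P i fz = P i fz * D) (h0 : D * P i (mu 0 0) = 0) : D = 0 := by
  have h4 : ∀ t, D * P i (mu 0 t) = 0 := by
    intro t
    rw [← m0, ← P_mul, ← mul_assoc, h0, zero_mul]
  have e : D = D * 1 := (mul_one D).symm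
  rw [e, one_eq i, ← m1, ← m2, ← m3, ← m4, ← m5, ← m6]
  simp only [← P_mul]
  simp only [mul_add]
  rw [h0, ← mul_assoc D, h1, mul_assoc, h4, mul_zero, ← mul_assoc D, h2, mul_assoc, h4, mul_zero,
    ← mul_assoc D, h3, mul_assoc, h4, mul_zero, ← mul_assoc D, h2, mul_assoc, ← mul_assoc D, h1,
    mul_assoc, h4, mul_zero, mul_zero, ← mul_assoc D, h3, mul_assoc, ← mul_assoc D, h1,
    mul_assoc, h4, mul_zero, mul_zero, ← mul_assoc D, h3, mul_assoc, ← mul_assoc D, h2,
    mul_assoc, h4, mul_zero, mul_zero]
  simp

/-- The elements killed by `z` commute with `x` and `y`. -/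
theorem comm_of_kill {b : E} {i : ℕ} (h1 : b * P i gx = P i gx * b)
    (h2 : b * P i gy = P i gy * b) (h3 : b * P i fz = P i fz * b) (h0 : b * P i fz = 0) :
    b * P i fx = P i fx * b ∧ b * P i fy = P i fy * b := by
  have k1 : P i (mu 4 2) * b * P i (mu 0 0) = 0 := by
    rw [← c46, ← P_mul, mul_assoc (P i (mu 4 6)), ← h3, h0, mul_zero, zero_mul]
  have k2 : P i (mu 4 1) * b * P i (mu 0 0) = 0 := by
    rw [← c45, ← P_mul, mul_assoc (P i (mu 4 5)), ← h3, h0, mul_zero, zero_mul]
  have cx1 : P i fx * P i gx = P i gx * P i fx := by rw [P_mul, P_mul, xgx]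
  have cx2 : P i fx * P i gy = P i gy * P i fx := by rw [P_mul, P_mul, xgy]
  have cx3 : P i fx * P i fz = P i fz * P i fx := by rw [P_mul, P_mul, xz]
  have cy1 : P i fy * P i gx = P i gx * P i fy := by rw [P_mul, P_mul, ygx]
  have cy2 : P i fy * P i gy = P i gy * P i fy := by rw [P_mul, P_mul, ygy]
  have cy3 : P i fy * P i fz = P i fz * P i fy := by rw [P_mul, P_mul, yz]
  have comm : ∀ {s g : E}, b * g = g * b → s * g = g * s →
      (b * s - s * b) * g = g * (b * s - s * b) := by
    intro s g hb hs
    rw [sub_mul, mul_sub, mul_assoc, hs, ← mul_assoc, hb, mul_assoc, mul_assoc s, hb, ← mul_assoc s,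
      hs, mul_assoc g s b]
  constructor
  · apply sub_eq_zero.1
    apply detect (i := i) (comm h1 cx1) (comm h2 cx2) (comm h3 cx3)
    have e1 : P i fx * P i (mu 0 0) = P i gx * P i (mu 0 0) := by rw [P_mul, P_mul, x00]
    rw [sub_mul, mul_assoc, e1, ← mul_assoc, h1, fx_eq, add_mul, add_mul, k1, add_zero]
    simp
  · apply sub_eq_zero.1
    apply detect (i := i) (comm h1 cy1) (comm h2 cy2) (comm h3 cy3)
    have e1 : P i fy * P i (mu 0 0) = P i gy * P i (mu 0 0) := by rw [P_mul, P_mul, y00]
    rw [sub_mul, mul_assoc, e1, ← mul_assoc, h2, gy_eq, add_mul, add_mul, k2, add_zero]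
    simp

/-- The generators. -/
def gen (k : ℕ) : E :=
  if k % 3 = 0 then P (k / 3) fx else if k % 3 = 1 then P (k / 3) fy else P (k / 3) fz

theorem gen_sq (k : ℕ) : gen k * gen k = 0 := by
  unfold gen
  split_ifs
  · rw [P_mul, xx, P_fo]
  · rw [P_mul, yy, P_fo]
  · rw [P_mul, zz, P_fo]

/-- The ring. -/
def T : Subring E := Subring.closure (Set.range gen)

theorem x_mem (i : ℕ) : P i fx ∈ T := by
  refine Subring.subset_closure ⟨3 * i, ?_⟩
  unfold gen
  have h0 : 3 * i % 3 = 0 := by omega
  have h1 : 3 * i / 3 = i := by omega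
  rw [if_pos h0, h1]

theorem y_mem (i : ℕ) : P i fy ∈ T := by
  refine Subring.subset_closure ⟨3 * i + 1, ?_⟩
  unfold gen
  have h0 : ¬ (3 * i + 1) % 3 = 0 := by omega
  have h2 : (3 * i + 1) % 3 = 1 := by omega
  have h1 : (3 * i + 1) / 3 = i := by omega
  rw [if_neg h0, if_pos h2, h1]

theorem z_mem (i : ℕ) : P i fz ∈ T := by
  refine Subring.subset_closure ⟨3 * i + 2, ?_⟩
  unfold gen
  have h0 : ¬ (3 * i + 2) % 3 = 0 := by omega
  have h2 : ¬ (3 * i + 2) % 3 = 1 := by omega
  have h1 : (3 * i + 2) / 3 = i := by omega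
  rw [if_neg h0, if_neg h2, h1]

/-- To commute with the ring it suffices to commute with the generators. -/
theorem comm_T {c : E} (h : ∀ i, c * P i fx = P i fx * c ∧ c * P i fy = P i fy * c ∧
    c * P i fz = P i fz * c) {b : E} (hb : b ∈ T) : b * c = c * b := by
  have h1 : T ≤ Subring.centralizer {c} := by
    apply Subring.closure_le.2
    rintro _ ⟨k, rfl⟩
    rw [SetLike.mem_coe, Subring.mem_centralizer_iff]
    intro g hg
    rw [Set.mem_singleton_iff] at hg
    subst hg
    obtain ⟨hx, hy, hz⟩ := h (k / 3)
    unfold gen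
    split_ifs
    · exact hx
    · exact hy
    · exact hz
  have h2 := Subring.mem_centralizer_iff.1 (h1 hb) c rfl
  exact h2.symm

theorem comm_gx {b : E} (hb : b ∈ T) (i : ℕ) : b * P i gx = P i gx * b := by
  apply comm_T _ hb
  intro j
  by_cases hij : i = j
  · subst hij
    refine ⟨?_, ?_, ?_⟩ <;> rw [P_mul, P_mul]
    · rw [xgx]
    · rw [ygx]
    · rw [zgx]
  · exact ⟨P_comm hij _ _, P_comm hij _ _, P_comm hij _ _⟩

theorem comm_gy {b : E} (hb : b ∈ T) (i : ℕ) : b * P i gy = P i gy * b := by
  apply comm_T _ hb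
  intro j
  by_cases hij : i = j
  · subst hij
    refine ⟨?_, ?_, ?_⟩ <;> rw [P_mul, P_mul]
    · rw [xgy]
    · rw [ygy]
    · rw [zgy]
  · exact ⟨P_comm hij _ _, P_comm hij _ _, P_comm hij _ _⟩

theorem comm_fz {b : E} (hb : b ∈ T) (i : ℕ) : b * P i fz = P i fz * b := by
  apply comm_T _ hb
  intro j
  by_cases hij : i = j
  · subst hij
    exact ⟨by rw [P_mul, P_mul, xz], by rw [P_mul, P_mul, yz], rfl⟩
  · exact ⟨P_comm hij _ _, P_comm hij _ _, P_comm hij _ _⟩

/-- Every element commutes with all operators at almost all sites. -/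
theorem far {b : E} (hb : b ∈ T) : ∃ n : ℕ, ∀ j, n ≤ j → ∀ h, b * P j h = P j h * b := by
  induction hb using Subring.closure_induction with
  | mem g hg =>
    obtain ⟨k, rfl⟩ := hg
    refine ⟨k / 3 + 1, fun j hj h => ?_⟩
    have hne : k / 3 ≠ j := by omega
    unfold gen
    split_ifs
    · exact P_comm hne _ _
    · exact P_comm hne _ _
    · exact P_comm hne _ _
  | zero => exact ⟨0, fun j _ h => by rw [zero_mul, mul_zero]⟩
  | one => exact ⟨0, fun j _ h => by rw [one_mul, mul_one]⟩
  | add a b _ _ iha ihb =>
    obtain ⟨m, hm⟩ := iha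
    obtain ⟨n, hn⟩ := ihb
    exact ⟨max m n, fun j hj h => by rw [add_mul, mul_add, hm j (by omega), hn j (by omega)]⟩
  | neg a _ iha =>
    obtain ⟨m, hm⟩ := iha
    exact ⟨m, fun j hj h => (neg_mul a (P j h)).trans
      ((congrArg Neg.neg (hm j hj h)).trans (mul_neg (P j h) a).symm)⟩
  | mul a b _ _ iha ihb =>
    obtain ⟨m, hm⟩ := iha
    obtain ⟨n, hn⟩ := ihb
    exact ⟨max m n, fun j hj h => by
      rw [mul_assoc, hn j (by omega), ← mul_assoc, hm j (by omega), mul_assoc]⟩

theorem exists_kill {b : E} (hb : b ∈ T) (hb0 : b ≠ 0) (n : ℕ) : ∃ c ∈ T,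
    (∀ d ∈ T, d * c = c * d) ∧ b * c ≠ 0 ∧ (∀ i < n, b * c * P i fz = 0) ∧
    ∀ j, n ≤ j → ∀ h, c * P j h = P j h * c := by
  induction n with
  | zero =>
    exact ⟨1, T.one_mem, fun d _ => by rw [mul_one, one_mul], by rwa [mul_one],
      fun i hi => absurd hi (by omega), fun j _ h => by rw [mul_one, one_mul]⟩
  | succ n ih =>
    obtain ⟨c, hc, hcc, hbc, hk, hf⟩ := ih
    by_cases h : b * c * P n fz = 0
    · refine ⟨c, hc, hcc, hbc, fun i hi => ?_, fun j hj => hf j (by omega)⟩
      rcases Nat.lt_succ_iff_lt_or_eq.1 hi with h1 | rfl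
      · exact hk i h1
      · exact h
    · refine ⟨c * P n fz, T.mul_mem hc (z_mem n), fun d hd => ?_, ?_, fun i hi => ?_,
        fun j hj g => ?_⟩
      · rw [← mul_assoc, hcc d hd, mul_assoc, comm_fz hd n, mul_assoc]
      · rwa [← mul_assoc]
      · rcases Nat.lt_succ_iff_lt_or_eq.1 hi with h1 | rfl
        · rw [← mul_assoc, mul_assoc _ (P n fz), P_comm (show n ≠ i by omega), ← mul_assoc, hk i h1,
            zero_mul]
        · rw [← mul_assoc, mul_assoc _ (P i fz), P_mul, zz, P_fo, mul_zero]
      · rw [mul_assoc, P_comm (show n ≠ j by omega), ← mul_assoc, hf j (by omega), mul_assoc]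

/-- The ring is centrally essential. -/
theorem essential (b : E) (hb : b ∈ T) (hb0 : b ≠ 0) : ∃ c ∈ T, (∀ d ∈ T, d * c = c * d) ∧
    b * c ≠ 0 ∧ ∀ d ∈ T, d * (b * c) = b * c * d := by
  obtain ⟨n, hn⟩ := far hb
  obtain ⟨c, hc, hcc, hbc, hk, hf⟩ := exists_kill hb hb0 n
  have hbcT : b * c ∈ T := T.mul_mem hb hc
  refine ⟨c, hc, hcc, hbc, fun d hd => ?_⟩
  apply comm_T _ hd
  intro i
  by_cases hi : i < n
  · obtain ⟨h1, h2⟩ := comm_of_kill (comm_gx hbcT i) (comm_gy hbcT i) (comm_fz hbcT i) (hk i hi)
    exact ⟨h1, h2, comm_fz hbcT i⟩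
  · have h1 : ∀ h, b * c * P i h = P i h * (b * c) := fun h => by
      rw [mul_assoc, hf i (by omega), ← mul_assoc, hn i (by omega), mul_assoc]
    exact ⟨h1 _, h1 _, h1 _⟩

/-- The operators preserve the integer valued functions. -/
theorem int_valued {b : E} (hb : b ∈ T) : ∀ f : W, (∀ c, ∃ m : ℤ, f c = m) →
    ∀ c, ∃ m : ℤ, b f c = m := by
  have hP : ∀ i h (f : W), (∀ c, ∃ m : ℤ, f c = m) → ∀ c, ∃ m : ℤ, P i h f c = m := by
    intro i h f hf c
    rw [P_apply]
    cases h (c i) with
    | none => exact ⟨0, by simp⟩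
    | some a => exact hf _
  induction hb using Subring.closure_induction with
  | mem g hg =>
    obtain ⟨k, rfl⟩ := hg
    unfold gen
    split_ifs
    · exact hP _ _
    · exact hP _ _
    · exact hP _ _
  | zero => exact fun f _ c => ⟨0, by simp⟩
  | one => exact fun f hf c => hf c
  | add a b _ _ iha ihb =>
    intro f hf c
    obtain ⟨m, hm⟩ := iha f hf c
    obtain ⟨n, hn⟩ := ihb f hf c
    exact ⟨m + n, by simp [hm, hn]⟩
  | neg a _ iha =>
    intro f hf c
    obtain ⟨m, hm⟩ := iha f hf c
    exact ⟨-m, by simp [hm]⟩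
  | mul a b _ _ iha ihb =>
    intro f hf c
    exact iha _ (ihb f hf) c

/-- The values depend on finitely many values. -/
theorem local_valued {b : E} (hb : b ∈ T) : ∀ c : Cfg, ∃ F : Finset Cfg, ∀ f : W,
    (∀ c' ∈ F, f c' = 0) → b f c = 0 := by
  classical
  have hP : ∀ i h (c : Cfg), ∃ F : Finset Cfg, ∀ f : W, (∀ c' ∈ F, f c' = 0) → P i h f c = 0 := by
    intro i h c
    cases hh : h (c i) with
    | none => exact ⟨∅, fun f _ => by rw [P_apply, hh]; rfl⟩
    | some a => exact ⟨{Function.update c i a}, fun f hf => by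
        rw [P_apply, hh]; exact hf _ (Finset.mem_singleton_self _)⟩
  induction hb using Subring.closure_induction with
  | mem g hg =>
    obtain ⟨k, rfl⟩ := hg
    unfold gen
    split_ifs
    · exact hP _ _
    · exact hP _ _
    · exact hP _ _
  | zero => exact fun c => ⟨∅, fun f _ => by simp⟩
  | one => exact fun c => ⟨{c}, fun f hf => hf c (Finset.mem_singleton_self c)⟩
  | add a b _ _ iha ihb =>
    intro c
    obtain ⟨F, hF⟩ := iha c
    obtain ⟨G, hG⟩ := ihb c
    refine ⟨F ∪ G, fun f hf => ?_⟩
    rw [LinearMap.add_apply, Pi.add_apply, hF f (fun c' h => hf c' (Finset.mem_union_left _ h)),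
      hG f (fun c' h => hf c' (Finset.mem_union_right _ h)), add_zero]
  | neg a _ iha =>
    intro c
    obtain ⟨F, hF⟩ := iha c
    refine ⟨F, fun f hf => ?_⟩
    rw [LinearMap.neg_apply, Pi.neg_apply, hF f hf, neg_zero]
  | mul a b _ _ iha ihb =>
    intro c
    obtain ⟨F, hF⟩ := iha c
    choose G hG using ihb
    refine ⟨F.biUnion G, fun f hf => ?_⟩
    apply hF
    intro c' hc'
    apply hG
    intro c'' hc''
    exact hf c'' (Finset.mem_biUnion.2 ⟨c', hc', hc''⟩)

theorem reduced_T : Reduced T := by
  classical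
  intro b hb h
  apply LinearMap.ext
  intro f
  funext c
  obtain ⟨F, hF⟩ := local_valued hb c
  -- a common denominator
  set n : ℕ := ∏ c' ∈ F, (f c').den with hn
  have hn0 : (n : ℚ) ≠ 0 := by
    rw [hn]
    push_cast
    exact Finset.prod_ne_zero_iff.2 (fun c' _ => by exact_mod_cast (f c').den_ne_zero)
  let g : W := fun c' => if c' ∈ F then n * f c' else 0
  have hg : ∀ c', ∃ m : ℤ, g c' = m := by
    intro c'
    by_cases hc' : c' ∈ F
    · obtain ⟨k, hk⟩ : (f c').den ∣ n := Finset.dvd_prod_of_mem _ hc'
      refine ⟨k * (f c').num, ?_⟩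
      have h1 := Rat.mul_den_eq_num (f c')
      simp only [g, if_pos hc', hk]
      push_cast
      rw [← h1]; ring
    · exact ⟨0, by simp [g, hc']⟩
  have h1 : b g c = n * b f c := by
    have h2 : b (g - (n : ℚ) • f) c = 0 := by
      apply hF
      intro c' hc'
      simp [g, hc']
    rw [map_sub, map_smul, Pi.sub_apply, Pi.smul_apply, smul_eq_mul, sub_eq_zero] at h2
    exact h2
  have h3 : b g c = 0 := by
    obtain ⟨m, hm⟩ := int_valued hb g hg c
    obtain ⟨p, hp, _, d, hd, hbd⟩ := h m.natAbs
    obtain ⟨k, hk⟩ := int_valued hd g hg c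
    have h4 : m = p * k := by
      have : (m : ℚ) = p * k := by
        rw [← hm, ← hk, hbd]
        have : ((p : E) * d) g = (p : ℚ) • (d g) := by
          rw [Module.End.mul_apply, Module.End.natCast_apply]
          funext c
          simp
        rw [this]
        simp
      exact_mod_cast this
    have h5 : m = 0 := by
      apply Int.eq_zero_of_abs_lt_dvd (m := p) ⟨k, h4⟩
      rw [Int.abs_eq_natAbs]
      exact_mod_cast hp
    rw [hm, h5]; simp
  rw [h1] at h3
  exact (mul_eq_zero.1 h3).resolve_left hn0

/-- The elements used to refute the polynomial identities. -/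
def u (k : ℕ) : E := P (k + 1) fx * P k fy

theorem u_mem (k : ℕ) : u k ∈ T := T.mul_mem (x_mem _) (y_mem _)

/-- The target configurations. -/
def tg (d m : ℕ) : Cfg := fun j => if j = m then 2 else if m < j ∧ j ≤ d then 4 else 0

theorem u_apply (d m k : ℕ) (f : W) :
    u k f (tg d m) = if k = m ∧ m < d then f (tg d (m + 1)) else 0 := by
  change P (k + 1) fx (P k fy f) (tg d m) = _
  rw [P_apply]
  have hk1 : k ≠ k + 1 := by omega
  by_cases hkm : k = m
  · subst hkm
    by_cases hkd : k < d
    · have h1 : tg d k (k + 1) = 4 := by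
        unfold tg
        rw [if_neg (by omega), if_pos (by omega)]
      rw [h1, if_pos ⟨rfl, hkd⟩]
      have h2 : fx 4 = some 2 := rfl
      rw [h2, Option.elim_some, P_apply, Function.update_of_ne hk1]
      have h3 : tg d k k = 2 := by
        unfold tg; rw [if_pos rfl]
      have h4 : fy 2 = some 0 := rfl
      rw [h3, h4, Option.elim_some]
      congr 1
      funext j
      by_cases hj : j = k
      · subst hj
        rw [Function.update_self]
        unfold tg
        rw [if_neg (by omega), if_neg (by omega)]
      · rw [Function.update_of_ne hj]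
        by_cases hj' : j = k + 1
        · subst hj'
          rw [Function.update_self]
          unfold tg
          rw [if_pos rfl]
        · rw [Function.update_of_ne hj']
          unfold tg
          rw [if_neg hj, if_neg hj']
          by_cases h5 : k < j ∧ j ≤ d
          · rw [if_pos h5, if_pos (by omega)]
          · rw [if_neg h5, if_neg (by omega)]
    · have h1 : tg d k (k + 1) = 0 := by
        unfold tg
        rw [if_neg (by omega), if_neg (by omega)]
      rw [h1, if_neg (by omega)]
      rfl
  · rw [if_neg (fun h => hkm h.1)]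
    cases hfx : fx (tg d m (k + 1)) with
    | none => rfl
    | some b =>
      rw [Option.elim_some, P_apply, Function.update_of_ne hk1]
      have h3 : fy (tg d m k) = none := by
        unfold tg
        rw [if_neg hkm]
        split_ifs <;> rfl
      rw [h3]
      rfl

/-- The elements substituted for the variables. -/
def sub {n : ℕ} (w : List (Fin n)) (i : Fin n) : E :=
  ∑ k : Fin w.length, if w.get k = i then u k else 0

theorem sub_mem {n : ℕ} (w : List (Fin n)) (i : Fin n) : sub w i ∈ T := by
  apply Subring.sum_mem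
  intro k _
  split_ifs
  · exact u_mem _
  · exact T.zero_mem

open Classical in
/-- The initial vector. -/
noncomputable def vac (d : ℕ) : W := fun c => if c = tg d d then 1 else 0

theorem word_apply {n : ℕ} (w : List (Fin n)) (v : List (Fin n)) : ∀ m ≤ w.length,
    (v.map (sub w)).prod (vac w.length) (tg w.length m) = if v = w.drop m then 1 else 0 := by
  induction v with
  | nil =>
    intro m hm
    rw [List.map_nil, List.prod_nil, Module.End.one_apply]
    unfold vac
    by_cases h : m = w.length
    · subst h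
      rw [if_pos rfl, if_pos (by simp)]
    · rw [if_neg, if_neg]
      · intro h1
        have h2 := congrArg List.length h1
        simp at h2
        omega
      · intro h1
        have h2 := congrFun h1 m
        unfold tg at h2
        rw [if_pos rfl, if_neg h, if_neg (by omega)] at h2
        exact absurd h2 (by decide)
  | cons i v ih =>
    intro m hm
    rw [List.map_cons, List.prod_cons, Module.End.mul_apply]
    set f := (v.map (sub w)).prod (vac w.length) with hf
    have h1 : sub w i f (tg w.length m)
        = ∑ k : Fin w.length, if w.get k = i then u k f (tg w.length m) else 0 := by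
      unfold sub
      rw [LinearMap.sum_apply, Finset.sum_apply]
      refine Finset.sum_congr rfl fun k _ => ?_
      split_ifs <;> rfl
    rw [h1]
    simp only [u_apply]
    by_cases hmd : m < w.length
    · rw [Finset.sum_eq_single (⟨m, hmd⟩ : Fin w.length)]
      · have hdrop : w.drop m = w.get ⟨m, hmd⟩ :: w.drop (m + 1) := by
          simp
        rw [hdrop]
        simp only [true_and, if_pos hmd]
        by_cases hwi : w.get ⟨m, hmd⟩ = i
        · rw [if_pos hwi, ih (m + 1) (by omega), hwi]
          simp
        · rw [if_neg hwi, if_neg]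
          intro h
          exact hwi (List.cons.inj h).1.symm
      · intro k _ hk
        have : ¬ ((k : ℕ) = m ∧ m < w.length) := by
          rintro ⟨h, _⟩
          exact hk (Fin.ext h)
        rw [if_neg this]
        simp
      · intro h
        exact absurd (Finset.mem_univ _) h
    · have hm' : m = w.length := by omega
      rw [Finset.sum_eq_zero]
      · rw [if_neg]
        intro h
        have h2 := congrArg List.length h
        simp [hm'] at h2
      · intro k _
        have : ¬ ((k : ℕ) = m ∧ m < w.length) := fun h => hmd h.2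
        rw [if_neg this]
        simp

/-- No nonzero polynomial vanishes on the ring. -/
theorem no_identity {n : ℕ} (f : List (Fin n) →₀ ℤ) (w : List (Fin n)) (hw : f w ≠ 0) :
    ∃ r : Fin n → T, (f.sum fun v c => c • (v.map r).prod) ≠ 0 := by
  refine ⟨fun i => ⟨sub w i, sub_mem w i⟩, fun h => hw ?_⟩
  have h1 : (f.sum fun v c => c • (v.map (sub w)).prod) = (0 : E) := by
    have h2 := congrArg (Subring.subtype T) h
    rw [map_zero, Finsupp.sum, map_sum] at h2
    rw [Finsupp.sum, ← h2]
    refine Finset.sum_congr rfl fun v _ => ?_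
    rw [map_zsmul, map_list_prod, List.map_map]
    rfl
  have h3 := congrFun (congrArg (fun t : E => t (vac w.length)) h1) (tg w.length 0)
  rw [Finsupp.sum] at h3
  simp only [LinearMap.sum_apply, Finset.sum_apply, LinearMap.smul_apply, Pi.smul_apply,
    word_apply w _ 0 (Nat.zero_le _), List.drop_zero, LinearMap.zero_apply, Pi.zero_apply] at h3
  rw [Finset.sum_eq_single w] at h3
  · simpa using h3
  · intro v _ hv
    rw [if_neg hv, smul_zero]
  · intro hw'
    rw [Finsupp.notMem_support_iff.1 hw', zero_smul]

end Pool.Agent.Q119.Real.Tensor
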